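import Pool.Agent.Y112.KD.Kill

/-!
# Kimura-finite objects and orbit functors: definitions
-/

set_option autoImplicit false

open CategoryTheory Limits MonoidalCategory
open Pool.Agent.Y112.KD

namespace Pool.Agent.K3h85.KO

universe v u v' u'

section

variable {C : Type u} [Category.{v} C] [MonoidalCategory C] [SymmetricCategory C]
  [Preadditive C] [Linear ℚ C]

/-- The object `X` is even: for some `n`, the exterior power `Λ^n X` is zero, that is, each
morphism `h` on `X ⊗ ⋯ ⊗ X` (`n` factors) with `h ∘ s = -h` for all exchanges `s` of two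
neighbouring factors is zero. -/
def IsEven (X : C) : Prop := ∃ n : ℕ, Kills (-1) X n

/-- The object `X` is odd: for some `n`, the symmetric power `Sym^n X` is zero, that is, each
morphism `h` on `X ⊗ ⋯ ⊗ X` (`n` factors) with `h ∘ s = h` for all exchanges `s` of two
neighbouring factors is zero. -/
def IsOdd (X : C) : Prop := ∃ n : ℕ, Kills 1 X n

/-- The object `M` is Kimura-finite: it is the direct sum of an even object `E` and of an odd
object `O` (with injections `i`, `i'` and projections `r`, `r'`). -/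
def IsKimuraFinite (M : C) : Prop :=
  ∃ (E O : C) (i : E ⟶ M) (r : M ⟶ E) (i' : O ⟶ M) (r' : M ⟶ O),
    i ≫ r = 𝟙 E ∧ i' ≫ r' = 𝟙 O ∧ i ≫ r' = 0 ∧ i' ≫ r = 0 ∧ r ≫ i + r' ≫ i' = 𝟙 M ∧
    IsEven E ∧ IsOdd O

end

section

open Functor.LaxMonoidal Functor.OplaxMonoidal

variable {C : Type u} [Category.{v} C] [Preadditive C] [MonoidalCategory C]
  [MonoidalPreadditive C] {D : Type u'} [Category.{v'} D] [Preadditive D] [MonoidalCategory D]
  [MonoidalPreadditive D]

/-- The powers `T i` (`i ∈ ℤ`) of a tensor invertible object `T 1` of `C`, together with a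
trivialisation of their images in `D`: there are isomorphisms `1 ≅ T 0`, `T i ⊗ T j ≅ T (i + j)`
in `C`, and isomorphisms `Φ (T i) ≅ 1` in `D` compatible with them. -/
structure Twist (Φ : C ⥤ D) [Φ.Monoidal] where
  /-- the `i`-th power of the invertible object -/
  T : ℤ → C
  /-- the power of exponent zero is the unit object -/
  unit : 𝟙_ C ≅ T 0
  /-- the tensor product of two powers -/
  mul (i j : ℤ) : T i ⊗ T j ≅ T (i + j)
  /-- the trivialisation of the images in `D` -/
  triv (i : ℤ) : Φ.obj (T i) ≅ 𝟙_ D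
  triv_unit : ε Φ ≫ Φ.map unit.hom ≫ (triv 0).hom = 𝟙 _
  triv_mul (i j : ℤ) : μ Φ (T i) (T j) ≫ Φ.map (mul i j).hom ≫ (triv (i + j)).hom =
    ((triv i).hom ⊗ₘ (triv j).hom) ≫ (λ_ (𝟙_ D)).hom

variable {Φ : C ⥤ D} [Φ.Monoidal]

/-- The morphism `Φ M ⟶ Φ N` of degree `i` given by the morphism `M ⟶ N ⊗ T i` of `C`: the
composition `Φ M ⟶ Φ (N ⊗ T i) ≅ Φ N ⊗ Φ (T i) ≅ Φ N ⊗ 1 ≅ Φ N`. -/
def Twist.hom [Φ.Additive] (t : Twist Φ) (i : ℤ) (M N : C) :
    (M ⟶ N ⊗ t.T i) →+ (Φ.obj M ⟶ Φ.obj N) where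
  toFun f := Φ.map f ≫ δ Φ N (t.T i) ≫ (Φ.obj N ◁ (t.triv i).hom) ≫ (ρ_ (Φ.obj N)).hom
  map_zero' := by simp
  map_add' f g := by simp

/-- The functor `Φ` identifies the full subcategory of `D` of the images of objects of `C` with
the orbit category of `C` with respect to the twists `T i`: the groups of morphisms of `D` are
`Hom (Φ M, Φ N) = ⨁ i, Hom (M, N ⊗ T i)`. -/
def Twist.IsOrbit [Φ.Additive] (t : Twist Φ) : Prop :=
  ∀ M N : C, Function.Bijective (DirectSum.toAddMonoid fun i : ℤ => t.hom i M N)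

end

end Pool.Agent.K3h85.KO
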