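import Pool.Agent.K3h85.KO.Main

/-!
# Kimura-finiteness descends along faithful tensor functors

The even projector of a Kimura-finite object is unique modulo negligible endomorphisms, so it is
fixed by all automorphisms modulo negligible endomorphisms.
-/

set_option autoImplicit false
set_option linter.unusedSectionVars false

open CategoryTheory Limits MonoidalCategory
open Pool.Agent.Y116.MT (tr)
open Pool.Agent.Y112.KD
open Pool.Agent.TH829.Kim (InRad Killed isNilpotent_of_inRad exists_lift exists_conj even_odd)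

namespace Pool.Agent.K3h85.KO

universe v u v' u'

section

variable {D : Type u'} [Category.{v'} D] [MonoidalCategory D] [SymmetricCategory D]
  [RightRigidCategory D] [Preadditive D]

/-- The endomorphism `x` is negligible (numerically trivial): the trace of `x ≫ y` is zero for
all endomorphisms `y`. -/
def IsNegligible {X : D} (x : X ⟶ X) : Prop := ∀ y : X ⟶ X, tr (x ≫ y) = 0

end

section

variable {D : Type u'} [Category.{v'} D] [Preadditive D] [Linear ℚ D] [MonoidalCategory D]
  [MonoidalPreadditive D] [MonoidalLinear ℚ D] [SymmetricCategory D] [RightRigidCategory D]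

lemma isNegligible_iff (hU : UnitQ D) {X : D} (x : X ⟶ X) :
    IsNegligible x ↔ InRad (trq hU X) (show End X from x) := by
  constructor
  · intro h γ
    apply hU.inj
    rw [trq_symm hU, ← trq_spec, zero_smul]
    exact h γ
  · intro h y
    have h1 := h (show End X from y)
    rw [trq_symm hU] at h1
    have h2 := trq_spec hU (X := X) ((show End X from y) * (show End X from x))
    rw [h1, zero_smul] at h2
    exact h2

/-- The even projector is unique modulo the radical. -/
lemma projector_unique (hU : UnitQ D) {X : D} {e e' : End X} (he : e * e = e)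
    (he' : e' * e' = e') {n m n' m' : ℕ} (hK : Killed (trq hU X) (-1) e n)
    (hK1 : Killed (trq hU X) 1 (1 - e) m) (hK' : Killed (trq hU X) (-1) e' n')
    (hK1' : Killed (trq hU X) 1 (1 - e') m') : InRad (trq hU X) (e - e') := by
  have hsym := trq_symm hU (M := X)
  have key : ∀ {e g : End X} {n m : ℕ}, e * e = e → g * g = g → Killed (trq hU X) (-1) e n →
      Killed (trq hU X) 1 g m → InRad (trq hU X) (e * g) ∧ InRad (trq hU X) (g * e) := by
    intro e g n m he hg h1 h2
    constructor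
    · intro γ
      have h3 := even_odd hsym he hg h1 h2 1 γ
      have e1 : e * 1 * g * (g * γ * e) = e * (g * g) * γ * e := by noncomm_ring
      rw [e1, hg, hsym] at h3
      have e2 : e * (e * g * γ) = e * e * g * γ := by noncomm_ring
      rw [e2, he] at h3
      exact h3
    · intro γ
      have h3 := even_odd hsym he hg h1 h2 γ 1
      have e1 : e * γ * g * (g * 1 * e) = (e * γ) * (g * g * e) := by noncomm_ring
      rw [e1, hg, hsym] at h3
      have e2 : g * e * (e * γ) = g * (e * e) * γ := by noncomm_ring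
      rw [e2, he] at h3
      exact h3
  have h1 := (key he (compl_idem he') hK hK1').1
  have h2 := (key he' (compl_idem he) hK' hK1).2
  have h3 : e - e' = e * (1 - e') - (1 - e) * e' := by noncomm_ring
  rw [h3]
  exact h1.sub h2

end

section

variable {C : Type u} [Category.{v} C] {D : Type u'} [Category.{v'} D] [Preadditive D]
  [MonoidalCategory D] [SymmetricCategory D]

/-- An automorphism of the pair `(D, Φ M)`: an additive symmetric monoidal functor `T : D ⥤ D`
together with an isomorphism `θ : Φ M ≅ T (Φ M)`. -/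
structure Automorphism (Φ : C ⥤ D) (M : C) where
  /-- the functor -/
  T : D ⥤ D
  /-- the functor is symmetric monoidal -/
  braided : T.Braided
  additive : T.Additive
  /-- the isomorphism -/
  θ : Φ.obj M ≅ T.obj (Φ.obj M)

/-- The action of an automorphism on the endomorphisms of `Φ M`. -/
def Automorphism.act {Φ : C ⥤ D} {M : C} (a : Automorphism Φ M) (x : Φ.obj M ⟶ Φ.obj M) :
    Φ.obj M ⟶ Φ.obj M :=
  a.θ.hom ≫ a.T.map x ≫ a.θ.inv

/-- Descent for the endomorphisms of `Φ M` modulo negligible ones: each endomorphism of `Φ M`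
whose class modulo negligible endomorphisms is fixed by all automorphisms is congruent, modulo a
negligible endomorphism, to the image of an endomorphism of `M`. -/
def HasDescent [RightRigidCategory D] (Φ : C ⥤ D) (M : C) : Prop :=
  ∀ x : Φ.obj M ⟶ Φ.obj M, (∀ a : Automorphism Φ M, IsNegligible (a.act x - x)) →
    ∃ f : M ⟶ M, IsNegligible (x - Φ.map f)

end

section

variable {C : Type u} [Category.{v} C] [Preadditive C] [Linear ℚ C] [MonoidalCategory C]
  [MonoidalPreadditive C] [MonoidalLinear ℚ C] [SymmetricCategory C] [RightRigidCategory C]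
  {D : Type u'} [Category.{v'} D] [Preadditive D] [Linear ℚ D] [MonoidalCategory D]
  [MonoidalPreadditive D] [MonoidalLinear ℚ D] [SymmetricCategory D] [RightRigidCategory D]
  {Φ : C ⥤ D} [Φ.Braided] [Φ.Additive]

/-- The even projector is fixed by all automorphisms modulo negligible endomorphisms. -/
lemma act_projector (hU : UnitQ D) {M : C} (a : Automorphism Φ M) {E O : D}
    {i : E ⟶ Φ.obj M} {r : Φ.obj M ⟶ E} {i' : O ⟶ Φ.obj M} {r' : Φ.obj M ⟶ O} {n m : ℕ}
    {e : End (Φ.obj M)} (he : e = r ≫ i) (he' : 1 - e = r' ≫ i') (hee : e * e = e)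
    (hn : asym (-1) E n = 0) (hm : asym 1 O m = 0) (hK : Killed (trq hU (Φ.obj M)) (-1) e n)
    (hK' : Killed (trq hU (Φ.obj M)) 1 (1 - e) m) :
    IsNegligible (a.act e - (show Φ.obj M ⟶ Φ.obj M from e)) := by
  have hb := a.braided
  have ha := a.additive
  obtain ⟨x, hx⟩ : ∃ x : End (Φ.obj M), x = a.act e := ⟨_, rfl⟩
  have h0 : (e : Φ.obj M ⟶ Φ.obj M) ≫ (e : Φ.obj M ⟶ Φ.obj M) = e := hee
  have h1 : x * x = x := by
    rw [End.mul_def, hx, Automorphism.act]
    simp only [Category.assoc, Iso.inv_hom_id_assoc]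
    rw [← Functor.map_comp_assoc, h0]
  have h2 : x = (a.θ.hom ≫ a.T.map r) ≫ (a.T.map i ≫ a.θ.inv) := by
    rw [hx, he]
    simp only [Automorphism.act, Functor.map_comp, Category.assoc]
  have h3 : 1 - x = (a.θ.hom ≫ a.T.map r') ≫ (a.T.map i' ≫ a.θ.inv) := by
    have h4 : (a.θ.hom ≫ a.T.map r') ≫ (a.T.map i' ≫ a.θ.inv) =
        a.θ.hom ≫ a.T.map (r' ≫ i') ≫ a.θ.inv := by
      simp only [Functor.map_comp, Category.assoc]
    rw [h4, ← he', hx]
    change 𝟙 _ - a.θ.hom ≫ a.T.map (e : Φ.obj M ⟶ Φ.obj M) ≫ a.θ.inv =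
      a.θ.hom ≫ a.T.map (𝟙 _ - (show Φ.obj M ⟶ Φ.obj M from e)) ≫ a.θ.inv
    rw [Functor.map_sub, Preadditive.sub_comp, Preadditive.comp_sub,
      CategoryTheory.Functor.map_id, Category.id_comp, Iso.hom_inv_id]
  have h5 : Killed (trq hU (Φ.obj M)) (-1) x n :=
    killed hU (by norm_num) _ _ n (asym_mono (by norm_num) _ (asym_map_eq_zero a.T hn)) _ h2
  have h6 : Killed (trq hU (Φ.obj M)) 1 (1 - x) m :=
    killed hU (by norm_num) _ _ m (asym_mono (by norm_num) _ (asym_map_eq_zero a.T hm)) _ h3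
  have h7 := (isNegligible_iff hU _).2 (projector_unique hU h1 hee h5 h6 hK hK')
  rw [hx] at h7
  exact h7

/-- Kimura-finiteness descends along faithful tensor functors with descent for endomorphisms
modulo negligible ones. -/
theorem kimura_iff_of_descent [IsIdempotentComplete C] [Φ.Faithful] (hU : UnitQ D) (M : C)
    (hD : HasDescent Φ M) : IsKimuraFinite M ↔ IsKimuraFinite (Φ.obj M) := by
  constructor
  · rintro ⟨E, O, i, r, i', r', h1, h2, h3, h4, h5, hE, hO⟩
    refine ⟨Φ.obj E, Φ.obj O, Φ.map i, Φ.map r, Φ.map i', Φ.map r', ?_, ?_, ?_, ?_, ?_, ?_, ?_⟩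
    · rw [← Functor.map_comp, h1, CategoryTheory.Functor.map_id]
    · rw [← Functor.map_comp, h2, CategoryTheory.Functor.map_id]
    · rw [← Functor.map_comp, h3, Functor.map_zero]
    · rw [← Functor.map_comp, h4, Functor.map_zero]
    · rw [← Functor.map_comp, ← Functor.map_comp, ← Functor.map_add, h5,
        CategoryTheory.Functor.map_id]
    · obtain ⟨n, hn⟩ := (isEven_iff E).1 hE
      exact (isEven_iff _).2 ⟨n, asym_map_eq_zero Φ hn⟩
    · obtain ⟨n, hn⟩ := (isOdd_iff O).1 hO
      exact (isOdd_iff _).2 ⟨n, asym_map_eq_zero Φ hn⟩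
  · intro h
    obtain ⟨E, O, i, r, i', r', n, m, e, h1, h2, he, he', hee, hn, hm, hK, hK'⟩ := h.parts hU
    have hsym := trq_symm hU (M := Φ.obj M)
    obtain ⟨f1, hf1⟩ := hD e fun a => act_projector hU a he he' hee hn hm hK hK'
    obtain ⟨e0, hf0⟩ : ∃ e0 : End (Φ.obj M), e0 = Φ.map f1 := ⟨_, rfl⟩
    have hr : InRad (trq hU (Φ.obj M)) (e - e0) := by
      rw [hf0]
      exact (isNegligible_iff hU _).1 hf1
    have hnilall : ∀ x, InRad (trq hU (Φ.obj M)) x → IsNilpotent x := fun x hx =>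
      isNilpotent_of_inRad hsym hee hK hK' hx
    have hsq : InRad (trq hU (Φ.obj M)) (e0 * e0 - e0) := by
      have e1 : e0 * e0 - e0 = -((e - e0) * e0 + e * (e - e0)) + (e - e0) := by
        have : e0 * e0 - e0 = -((e - e0) * e0 + e * (e - e0)) + (e * e - e0) := by noncomm_ring
        rw [this, hee]
      rw [e1]
      exact ((hr.mul_right _).add (hr.mul_left hsym _)).neg.add hr
    have hmapmul : ∀ x y : End M, (Φ.mapEnd M) (x * y) = (Φ.mapEnd M) x * (Φ.mapEnd M) y :=
      fun x y => map_mul _ _ _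
    have hmapsub : ∀ x y : End M, (Φ.mapEnd M) (x - y) = (Φ.mapEnd M) x - (Φ.mapEnd M) y :=
      fun x y => Functor.map_sub _
    have hmap1 : (Φ.mapEnd M) (show End M from f1) = e0 := hf0.symm
    have hnil : IsNilpotent ((show End M from f1) * (show End M from f1) -
        (show End M from f1)) := by
      obtain ⟨k, hk⟩ := hnilall _ hsq
      refine ⟨k, ?_⟩
      apply Φ.map_injective
      have h3 : (Φ.mapEnd M) (((show End M from f1) * (show End M from f1) -
          (show End M from f1)) ^ k) = (e0 * e0 - e0) ^ k := by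
        rw [map_pow, hmapsub, hmapmul, hmap1]
      refine Eq.trans h3 (hk.trans ?_)
      exact (Functor.map_zero Φ M M).symm
    obtain ⟨f, c, hff, hfc⟩ := exists_lift hnil
    have hF : (Φ.mapEnd M) f * (Φ.mapEnd M) f = (Φ.mapEnd M) f := by rw [← hmapmul, hff]
    have heF : InRad (trq hU (Φ.obj M)) (e - (Φ.mapEnd M) f) := by
      have h3 : (Φ.mapEnd M) f - e0 = (e0 * e0 - e0) * (Φ.mapEnd M) c := by
        rw [← hmap1, ← hmapsub, hfc, hmapmul, hmapsub, hmapmul]
      have h4 : e - (Φ.mapEnd M) f = (e - e0) - ((Φ.mapEnd M) f - e0) := by abel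
      rw [h4, h3]
      exact hr.sub (hsq.mul_right _)
    obtain ⟨u, v, huv, hvu, heu⟩ := exists_conj hsym hee hF hnilall heF
    have hFe : (Φ.mapEnd M) f = v * e * u := by
      rw [heu]
      calc (Φ.mapEnd M) f = (v * u) * (Φ.mapEnd M) f * (v * u) := by rw [hvu, one_mul, mul_one]
        _ = _ := by simp only [mul_assoc]
    have hFe' : (Φ.mapEnd M) (1 - f) = v * (1 - e) * u := by
      rw [hmapsub, map_one, hFe, mul_sub, sub_mul, mul_one, hvu]
    have hff' : (1 - f) * (1 - f) = 1 - f := compl_idem hff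
    have key : ∀ (η : ℚ) (g : End M) (g' : End (Φ.obj M)) (P : D) (j : P ⟶ Φ.obj M)
        (q : Φ.obj M ⟶ P) (n : ℕ), g * g = g → (Φ.mapEnd M) g = v * g' * u → g' = q ≫ j →
        asym η P n = 0 → ∃ (Q : C) (i₁ : Q ⟶ M) (r₁ : M ⟶ Q), i₁ ≫ r₁ = 𝟙 Q ∧ r₁ ≫ i₁ = g ∧
          asym η Q n = 0 := by
      intro η g g' P j q n hg hgg' hg' hP
      obtain ⟨Q, i₁, r₁, k1, k2⟩ := IsIdempotentComplete.idempotents_split M (g : M ⟶ M) hg
      refine ⟨Q, i₁, r₁, k1, k2, ?_⟩
      apply asym_eq_zero_of_map Φ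
      refine kills_retract (Φ.map i₁ ≫ (u : Φ.obj M ⟶ Φ.obj M) ≫ q)
        (j ≫ (v : Φ.obj M ⟶ Φ.obj M) ≫ Φ.map r₁) ?_ hP
      have k3 : Φ.map (g : M ⟶ M) = (u : Φ.obj M ⟶ Φ.obj M) ≫ (q ≫ j) ≫ v := by
        rw [← hg']
        exact hgg'
      have k4 : (Φ.map i₁ ≫ (u : Φ.obj M ⟶ Φ.obj M) ≫ q) ≫
          (j ≫ (v : Φ.obj M ⟶ Φ.obj M) ≫ Φ.map r₁) = Φ.map i₁ ≫
            ((u : Φ.obj M ⟶ Φ.obj M) ≫ (q ≫ j) ≫ v) ≫ Φ.map r₁ := by
        simp only [Category.assoc]
      rw [k4, ← k3, ← k2, ← Functor.map_comp, ← Functor.map_comp, Category.assoc, k1,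
        Category.comp_id, k1, CategoryTheory.Functor.map_id]
    obtain ⟨E', i₁, r₁, k1, k2, k3⟩ := key (-1) f e E i r n hff hFe he hn
    obtain ⟨O', i₂, r₂, l1, l2, l3⟩ := key 1 (1 - f) (1 - e) O i' r' m hff' hFe' he' hm
    have hsum : r₁ ≫ i₁ + r₂ ≫ i₂ = 𝟙 M := by
      rw [k2, l2]
      exact add_sub_cancel f 1
    have hz1 : i₁ ≫ r₂ = 0 := by
      have e1 : i₁ ≫ (r₁ ≫ i₁ + r₂ ≫ i₂) ≫ r₂ = i₁ ≫ r₂ := by rw [hsum, Category.id_comp]
      rw [Preadditive.add_comp, Preadditive.comp_add, Category.assoc, Category.assoc, l1,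
        reassoc_of% k1, Category.comp_id] at e1
      exact left_eq_add.1 e1.symm
    have hz2 : i₂ ≫ r₁ = 0 := by
      have e1 : i₂ ≫ (r₁ ≫ i₁ + r₂ ≫ i₂) ≫ r₁ = i₂ ≫ r₁ := by rw [hsum, Category.id_comp]
      rw [Preadditive.add_comp, Preadditive.comp_add, Category.assoc, Category.assoc, k1,
        reassoc_of% l1, Category.comp_id] at e1
      exact left_eq_add.1 e1.symm
    exact ⟨E', O', i₁, r₁, i₂, r₂, k1, l1, hz1, hz2, hsum, (isEven_iff E').2 ⟨n, k3⟩,
      (isOdd_iff O').2 ⟨m, l3⟩⟩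

end

end Pool.Agent.K3h85.KO
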