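import Pool.Agent.K3h85.KO.Tr

/-!
# Symmetric monoidal functors and (anti)symmetrizers
-/

set_option autoImplicit false
set_option linter.unusedSectionVars false

open CategoryTheory Limits MonoidalCategory
open Pool.Agent.Y116.MT (tr)
open Pool.Agent.Y112.KD

namespace Pool.Agent.K3h85.KO

universe v u v' u'

open Functor.LaxMonoidal Functor.OplaxMonoidal

section

variable {C : Type u} [Category.{v} C] [MonoidalCategory C] [SymmetricCategory C]
  {D : Type u'} [Category.{v'} D] [MonoidalCategory D] [SymmetricCategory D]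
  (F : C ⥤ D) [F.Braided]

/-- The comparison of the tensor powers. -/
def cmp (X : C) : ∀ n : ℕ, (tp (F.obj X) n ⟶ F.obj (tp X n))
  | 0 => ε F
  | n + 1 => (cmp X n ▷ F.obj X) ≫ μ F (tp X n) X

/-- The inverse comparison of the tensor powers. -/
def cmpInv (X : C) : ∀ n : ℕ, (F.obj (tp X n) ⟶ tp (F.obj X) n)
  | 0 => η F
  | n + 1 => δ F (tp X n) X ≫ (cmpInv X n ▷ F.obj X)

lemma cmp_succ (X : C) (n : ℕ) : cmp F X (n + 1) = (cmp F X n ▷ F.obj X) ≫ μ F (tp X n) X := rfl

lemma cmpInv_succ (X : C) (n : ℕ) :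
    cmpInv F X (n + 1) = δ F (tp X n) X ≫ (cmpInv F X n ▷ F.obj X) := rfl

lemma cmp_cmpInv (X : C) (n : ℕ) : cmp F X n ≫ cmpInv F X n = 𝟙 _ := by
  induction n with
  | zero => exact Functor.Monoidal.ε_η F
  | succ n ih =>
    rw [cmp_succ, cmpInv_succ, Category.assoc, Functor.Monoidal.μ_δ_assoc, ← comp_whiskerRight,
      ih, id_whiskerRight]

lemma cmpInv_cmp (X : C) (n : ℕ) : cmpInv F X n ≫ cmp F X n = 𝟙 _ := by
  induction n with
  | zero => exact Functor.Monoidal.η_ε F
  | succ n ih =>
    rw [cmp_succ, cmpInv_succ, Category.assoc, ← comp_whiskerRight_assoc, ih, id_whiskerRight,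
      Category.id_comp, Functor.Monoidal.δ_μ]

lemma sw_map (Q X : C) : sw (F.obj Q) (F.obj X) ≫ (μ F Q X ▷ F.obj X) ≫ μ F (Q ⊗ X) X =
    (μ F Q X ▷ F.obj X) ≫ μ F (Q ⊗ X) X ≫ F.map (sw Q X) := by
  have h1 := Functor.LaxMonoidal.associativity (F := F) Q X X
  have h2 := Functor.LaxMonoidal.associativity_inv (F := F) Q X X
  have h3 : μ F X X ≫ F.map (β_ X X).hom = (β_ (F.obj X) (F.obj X)).hom ≫ μ F X X :=
    Functor.LaxBraided.braided X X
  simp only [sw, Functor.map_comp, Category.assoc]
  rw [reassoc_of% h1, ← μ_natural_right_assoc, ← h2, ← MonoidalCategory.whiskerLeft_comp_assoc,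
    ← h3, MonoidalCategory.whiskerLeft_comp_assoc]

lemma sw_cmp (X : C) (n : ℕ) : sw (tp (F.obj X) n) (F.obj X) ≫ cmp F X (n + 2) =
    cmp F X (n + 2) ≫ F.map (sw (tp X n) X) := by
  have h1 := sw_nat_left (X := F.obj X) (cmp F X n)
  rw [cmp_succ, cmp_succ, comp_whiskerRight]
  simp only [Category.assoc]
  rw [← reassoc_of% h1, sw_map]

variable [Preadditive C] [Linear ℚ C] [Preadditive D] [Linear ℚ D] [MonoidalPreadditive C]
  [MonoidalLinear ℚ C] [MonoidalPreadditive D] [MonoidalLinear ℚ D] [F.Additive]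

lemma asym_cmp (η : ℚ) (X : C) (n : ℕ) : asym η (F.obj X) n ≫ cmp F X n =
    cmp F X n ≫ F.map (asym η X n) := by
  induction n with
  | zero => simp [asym_zero]
  | succ n ih =>
    rcases n with - | n
    · simp [asym_one]
    · have h1 : asym η (F.obj X) (n + 1) ▷ F.obj X ≫ cmp F X (n + 2) =
          cmp F X (n + 2) ≫ F.map (asym η X (n + 1) ▷ X) := by
        rw [cmp_succ F X (n + 1), ← comp_whiskerRight_assoc, ih, comp_whiskerRight_assoc,
          Category.assoc, μ_natural_left]
      have h2 := sw_cmp F X n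
      rw [asym_succ, asym_succ, Functor.map_smul, Functor.map_add, Functor.map_smul,
        Functor.map_comp, Functor.map_comp, Linear.smul_comp, Preadditive.add_comp,
        Linear.smul_comp, Linear.comp_smul, Preadditive.comp_add, Linear.comp_smul, h1]
      simp only [Category.assoc]
      rw [h1, reassoc_of% h2, reassoc_of% h1]

/-- The functor preserves the vanishing of a power. -/
lemma asym_map_eq_zero {η : ℚ} {X : C} {n : ℕ} (h : asym η X n = 0) :
    asym η (F.obj X) n = 0 := by
  have h1 := asym_cmp F η X n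
  rw [h, Functor.map_zero, comp_zero] at h1
  have h2 := congrArg (fun z => z ≫ cmpInv F X n) h1
  simpa [cmp_cmpInv] using h2

/-- A faithful functor reflects the vanishing of a power. -/
lemma asym_eq_zero_of_map [F.Faithful] {η : ℚ} {X : C} {n : ℕ} (h : asym η (F.obj X) n = 0) :
    asym η X n = 0 := by
  have h1 := asym_cmp F η X n
  rw [h, zero_comp] at h1
  have h2 := congrArg (fun z => cmpInv F X n ≫ z) h1
  simp only [comp_zero, ← Category.assoc, cmpInv_cmp, Category.id_comp] at h2
  apply F.map_injective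
  rw [← h2, Functor.map_zero]

end

end Pool.Agent.K3h85.KO
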