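import Pool.Agent.TH829.Kim.Alg2

/-!
# The even projector of a graded algebra with a trace has degree zero
-/

set_option autoImplicit false

open Pool.Agent.TH829.Kim

namespace Pool.Agent.K3h85.KO

variable {R : Type*} [Ring R] [Algebra ℚ R] {tr : R →ₗ[ℚ] ℚ}

lemma inRad_zero : InRad tr (0 : R) := fun γ => by rw [zero_mul, map_zero]

lemma inRad_sum {ι : Type*} (s : Finset ι) (y : ι → R) (h : ∀ i ∈ s, InRad tr (y i)) :
    InRad tr (∑ i ∈ s, y i) := by
  classical
  induction s using Finset.induction_on with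
  | empty => simpa using inRad_zero
  | insert a s ha ih =>
    rw [Finset.sum_insert ha]
    exact (h a (Finset.mem_insert_self a s)).add
      (ih fun i hi => h i (Finset.mem_insert_of_mem hi))

section Kf

variable (hsym : ∀ a b : R, tr (a * b) = tr (b * a)) {e : R} (he : e * e = e) {n m : ℕ}
  (hE : Killed tr (-1) e n) (hO : Killed tr 1 (1 - e) m)

omit [Algebra ℚ R] in
include he in
lemma compl_idem : (1 - e) * (1 - e) = 1 - e := by
  rw [mul_sub, sub_mul, sub_mul, one_mul, one_mul, mul_one, he, sub_self, sub_zero]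

include hsym he hE hO

/-- The even projector is central modulo the radical. -/
lemma comm_inRad (b : R) : InRad tr (e * b - b * e) := by
  have hg := compl_idem he
  have h1 : InRad tr (e * b * (1 - e)) := by
    intro γ
    have h2 := even_odd hsym he hg hE hO b γ
    rw [← h2]
    calc tr (e * b * (1 - e) * γ) = tr (e * (e * b * (1 - e) * γ)) := by
          simp only [← mul_assoc, he]
      _ = tr ((e * b * (1 - e) * γ) * e) := hsym _ _
      _ = tr (e * b * ((1 - e) * (1 - e)) * γ * e) := by rw [hg]
      _ = _ := by simp only [mul_assoc]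
  have h3 : InRad tr ((1 - e) * b * e) := by
    intro γ
    have h2 := even_odd hsym he hg hE hO γ b
    rw [← h2]
    calc tr ((1 - e) * b * e * γ) = tr ((1 - e) * b * (e * γ)) := by simp only [mul_assoc]
      _ = tr ((1 - e) * ((1 - e) * b * (e * γ))) := by simp only [← mul_assoc, hg]
      _ = tr (((1 - e) * b * (e * γ)) * (1 - e)) := hsym _ _
      _ = tr (((1 - e) * b * e) * (e * γ * (1 - e))) := by
          congr 1
          calc ((1 - e) * b * (e * γ)) * (1 - e) = (1 - e) * b * e * γ * (1 - e) := by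
                simp only [mul_assoc]
            _ = (1 - e) * b * (e * e) * γ * (1 - e) := by rw [he]
            _ = _ := by simp only [mul_assoc]
      _ = tr ((e * γ * (1 - e)) * ((1 - e) * b * e)) := hsym _ _
  have e1 : e * b - b * e = e * b * (1 - e) - (1 - e) * b * e := by noncomm_ring
  rw [e1]
  exact h1.sub h3

lemma tr_corner {x : R} (hx : IsNilpotent x) : tr (e * x * e) = 0 := by
  have key : ∀ k : ℕ, InRad tr ((e * x * e) ^ (k + 1) - e * x ^ (k + 1) * e) := by
    intro k
    induction k with
    | zero => simpa using inRad_zero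
    | succ k ih =>
      have e1 : (e * x * e) ^ (k + 1 + 1) - e * x ^ (k + 1 + 1) * e =
          ((e * x * e) ^ (k + 1) - e * x ^ (k + 1) * e) * (e * x * e) +
            e * x ^ (k + 1) * (e * x - x * e) * e := by
        have e2 : e * x ^ (k + 1) * e * (e * x * e) = e * x ^ (k + 1) * (e * x) * e := by
          calc e * x ^ (k + 1) * e * (e * x * e) = e * x ^ (k + 1) * (e * e) * x * e := by
                simp only [mul_assoc]
            _ = _ := by rw [he]; simp only [mul_assoc]
        have e3 : e * x ^ (k + 1) * (x * e) * e = e * x ^ (k + 1 + 1) * e := by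
          calc e * x ^ (k + 1) * (x * e) * e = e * (x ^ (k + 1) * x) * (e * e) := by
                simp only [mul_assoc]
            _ = _ := by rw [he, ← pow_succ]
        rw [pow_succ, sub_mul, e2, mul_sub, sub_mul, e3]
        abel
      rw [e1]
      exact (ih.mul_right _).add
        (((comm_inRad hsym he hE hO x).mul_left hsym _).mul_right _)
  obtain ⟨k, hk⟩ := hx
  have h1 := key k
  rw [pow_succ x, hk, zero_mul, mul_zero, zero_mul, sub_zero] at h1
  have h2 : IsNilpotent (e * x * e) := by
    obtain ⟨l, hl⟩ := isNilpotent_of_inRad hsym he hE hO h1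
    exact ⟨(k + 1) * l, by rw [pow_mul, hl]⟩
  have h3 : ∀ k, 1 ≤ k → e * (e * x * e) ^ k = (e * x * e) ^ k := by
    intro k hk
    obtain ⟨j, rfl⟩ := Nat.exists_eq_add_of_le' hk
    rw [pow_succ', ← mul_assoc]
    simp only [← mul_assoc, he]
  have h4 := tr_eq_zero_of_isNilpotent tr (-1) h2
    (fun k hk => hE.F_eq _ (fun _ => h3 k hk)) 1 le_rfl
  rwa [pow_one] at h4

lemma tr_corner' {x : R} (hx : IsNilpotent x) : tr ((1 - e) * x * (1 - e)) = 0 := by
  have hg := compl_idem he
  obtain ⟨g, hgdef⟩ : ∃ g, g = 1 - e := ⟨_, rfl⟩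
  rw [← hgdef] at hg hO ⊢
  have hc : ∀ b, InRad tr (g * b - b * g) := by
    intro b
    have h1 := comm_inRad hsym he hE (hgdef ▸ hO) b
    have e1 : g * b - b * g = -(e * b - b * e) := by rw [hgdef]; noncomm_ring
    rw [e1]
    exact h1.neg
  have key : ∀ k : ℕ, InRad tr ((g * x * g) ^ (k + 1) - g * x ^ (k + 1) * g) := by
    intro k
    induction k with
    | zero => simpa using inRad_zero
    | succ k ih =>
      have e1 : (g * x * g) ^ (k + 1 + 1) - g * x ^ (k + 1 + 1) * g =
          ((g * x * g) ^ (k + 1) - g * x ^ (k + 1) * g) * (g * x * g) +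
            g * x ^ (k + 1) * (g * x - x * g) * g := by
        have e2 : g * x ^ (k + 1) * g * (g * x * g) = g * x ^ (k + 1) * (g * x) * g := by
          calc g * x ^ (k + 1) * g * (g * x * g) = g * x ^ (k + 1) * (g * g) * x * g := by
                simp only [mul_assoc]
            _ = _ := by rw [hg]; simp only [mul_assoc]
        have e3 : g * x ^ (k + 1) * (x * g) * g = g * x ^ (k + 1 + 1) * g := by
          calc g * x ^ (k + 1) * (x * g) * g = g * (x ^ (k + 1) * x) * (g * g) := by
                simp only [mul_assoc]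
            _ = _ := by rw [hg, ← pow_succ]
        rw [pow_succ, sub_mul, e2, mul_sub, sub_mul, e3]
        abel
      rw [e1]
      exact (ih.mul_right _).add (((hc x).mul_left hsym _).mul_right _)
  obtain ⟨k, hk⟩ := hx
  have h1 := key k
  rw [pow_succ x, hk, zero_mul, mul_zero, zero_mul, sub_zero] at h1
  have h2 : IsNilpotent (g * x * g) := by
    obtain ⟨l, hl⟩ := isNilpotent_of_inRad hsym he hE (hgdef ▸ hO) h1
    exact ⟨(k + 1) * l, by rw [pow_mul, hl]⟩
  have h3 : ∀ k, 1 ≤ k → g * (g * x * g) ^ k = (g * x * g) ^ k := by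
    intro k hk
    obtain ⟨j, rfl⟩ := Nat.exists_eq_add_of_le' hk
    rw [pow_succ', ← mul_assoc]
    simp only [← mul_assoc, hg]
  have h4 := tr_eq_zero_of_isNilpotent tr 1 h2
    (fun k hk => hO.F_eq _ (fun _ => h3 k hk)) 1 le_rfl
  rwa [pow_one] at h4

/-- The trace of a nilpotent element vanishes. -/
lemma tr_nilpotent {x : R} (hx : IsNilpotent x) : tr x = 0 := by
  have hg := compl_idem he
  have h1 := tr_corner hsym he hE hO hx
  have h2 := tr_corner' hsym he hE hO hx
  have h3 : tr (e * x * e) = tr (e * x) := by rw [hsym, ← mul_assoc, he]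
  have h4 : tr ((1 - e) * x * (1 - e)) = tr ((1 - e) * x) := by rw [hsym, ← mul_assoc, hg]
  have h5 : x = e * x + (1 - e) * x := by noncomm_ring
  rw [h5, map_add, ← h3, ← h4, h1, h2, add_zero]

/-- A central element modulo the radical with square in the radical is in the radical. -/
lemma inRad_of_sq {z : R} (hz : ∀ b, InRad tr (z * b - b * z)) (hz2 : InRad tr (z * z)) :
    InRad tr z := by
  intro γ
  apply tr_nilpotent hsym he hE hO
  have h1 : InRad tr ((z * γ) * (z * γ)) := by
    have e1 : (z * γ) * (z * γ) = z * z * (γ * γ) - z * (z * γ - γ * z) * γ := by noncomm_ring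
    rw [e1]
    exact (hz2.mul_right _).sub (((hz γ).mul_left hsym _).mul_right _)
  obtain ⟨l, hl⟩ := isNilpotent_of_inRad hsym he hE hO h1
  exact ⟨2 * l, by rw [pow_mul, pow_two, hl]⟩

variable {A : ℤ → Submodule ℚ R} (hmul : ∀ i j : ℤ, ∀ x ∈ A i, ∀ y ∈ A j, x * y ∈ A (i + j))
  (hspan : ∀ x : R, ∃ c : ℤ →₀ R, (∀ i, c i ∈ A i) ∧ x = c.sum fun _ y => y)
  (htr : ∀ i : ℤ, i ≠ 0 → ∀ x ∈ A i, tr x = 0)

omit hsym he hE hO in
include hmul hspan htr in
/-- The radical can be tested on elements of the opposite degree. -/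
lemma inRad_of_homog {i : ℤ} {x : R} (hx : x ∈ A i) (h : ∀ γ ∈ A (-i), tr (x * γ) = 0) :
    InRad tr x := by
  intro γ
  obtain ⟨c, hc, rfl⟩ := hspan γ
  rw [Finsupp.sum, Finset.mul_sum, map_sum]
  apply Finset.sum_eq_zero
  intro j _
  by_cases hj : j = -i
  · subst hj
    exact h _ (hc _)
  · exact htr (i + j) (by omega) _ (hmul _ _ _ hx _ (hc j))

omit hsym he hE hO in
include hmul hspan htr in
/-- The radical is graded. -/
lemma inRad_component {ι : Type*} (s : Finset ι) (y : ι → R) (d : ι → ℤ)
    (hd : Function.Injective d) (hy : ∀ i, y i ∈ A (d i)) (h : InRad tr (∑ i ∈ s, y i)) {i : ι}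
    (hi : i ∈ s) : InRad tr (y i) := by
  apply inRad_of_homog hmul hspan htr (hy i)
  intro γ hγ
  have h1 := h γ
  rw [Finset.sum_mul, map_sum, Finset.sum_eq_single i] at h1
  · exact h1
  · intro j _ hj
    refine htr (d j + -d i) ?_ _ (hmul _ _ _ (hy j) _ hγ)
    intro h2
    exact hj (hd (by omega))
  · intro h2
    exact absurd hi h2

include hmul hspan htr

/-- The components of the even projector are central modulo the radical. -/
lemma component_comm (c : ℤ →₀ R) (hc : ∀ i, c i ∈ A i) (hec : e = c.sum fun _ y => y) (i : ℤ)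
    (b : R) : InRad tr (c i * b - b * c i) := by
  by_cases hi : i ∈ c.support
  · obtain ⟨c', hc', rfl⟩ := hspan b
    rw [Finsupp.sum, Finset.mul_sum, Finset.sum_mul, ← Finset.sum_sub_distrib]
    apply inRad_sum
    intro j _
    have h1 := comm_inRad hsym he hE hO (c' j)
    have h2 : e * c' j - c' j * e = ∑ i ∈ c.support, (c i * c' j - c' j * c i) := by
      rw [hec, Finsupp.sum, Finset.mul_sum, Finset.sum_mul, ← Finset.sum_sub_distrib]
    rw [h2] at h1
    refine inRad_component hmul hspan htr c.support (fun i => c i * c' j - c' j * c i)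
      (fun i => i + j) (fun a b hab => by simpa using hab) (fun i => ?_) h1 hi
    refine Submodule.sub_mem _ (hmul _ _ _ (hc i) _ (hc' j)) ?_
    rw [add_comm]
    exact hmul _ _ _ (hc' j) _ (hc i)
  · rw [Finsupp.notMem_support_iff.1 hi, zero_mul, mul_zero, sub_zero]
    exact inRad_zero

/-- The components of positive degree of the even projector are in the radical. -/
lemma component_pos (c : ℤ →₀ R) (hc : ∀ i, c i ∈ A i) (hec : e = c.sum fun _ y => y) {i : ℤ}
    (hi : 0 < i) : InRad tr (c i) := by
  classical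
  by_contra hcon
  let T := c.support.filter fun j => 0 < j ∧ ¬ InRad tr (c j)
  have hiT : i ∈ T := by
    rw [Finset.mem_filter]
    refine ⟨?_, hi, hcon⟩
    rw [Finsupp.mem_support_iff]
    intro h0
    exact hcon (h0 ▸ inRad_zero)
  obtain ⟨d, hd, hmax⟩ := Finset.exists_max_image T id ⟨i, hiT⟩
  rw [Finset.mem_filter] at hd
  obtain ⟨hds, hd0, hdn⟩ := hd
  have habove : ∀ j, d < j → InRad tr (c j) := by
    intro j hj
    by_contra hcon2
    have hjT : j ∈ T := by
      rw [Finset.mem_filter]
      refine ⟨?_, by omega, hcon2⟩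
      rw [Finsupp.mem_support_iff]
      intro h0
      exact hcon2 (h0 ▸ inRad_zero)
    have := hmax j hjT
    simp only [id] at this
    omega
  apply hdn
  apply inRad_of_sq hsym he hE hO (component_comm hsym he hE hO hmul hspan htr c hc hec d)
  -- the truncation of the projector
  let s := c.support.filter fun j => j ≤ d
  let e' := ∑ j ∈ s, c j
  have hee' : InRad tr (e - e') := by
    have h1 : e - e' = ∑ j ∈ c.support.filter (fun j => ¬ j ≤ d), c j := by
      rw [hec, Finsupp.sum, ← Finset.sum_filter_add_sum_filter_not c.support (fun j => j ≤ d)]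
      exact add_sub_cancel_left _ _
    rw [h1]
    apply inRad_sum
    intro j hj
    rw [Finset.mem_filter] at hj
    exact habove j (by omega)
  have hsq : InRad tr (e' * e' - e') := by
    have e1 : e' * e' - e' = -((e - e') * e' + e * (e - e')) + (e - e') := by
      have : e' * e' - e' = -((e - e') * e' + e * (e - e')) + (e * e - e') := by noncomm_ring
      rw [this, he]
    rw [e1]
    exact ((hee'.mul_right _).add (hee'.mul_left hsym _)).neg.add hee'
  apply inRad_of_homog hmul hspan htr (hmul _ _ _ (hc d) _ (hc d))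
  intro γ hγ
  have h1 := hsq γ
  have h2 : tr (e' * γ) = 0 := by
    rw [Finset.sum_mul, map_sum]
    apply Finset.sum_eq_zero
    intro j hj
    rw [Finset.mem_filter] at hj
    exact htr (j + -(d + d)) (by omega) _ (hmul _ _ _ (hc j) _ hγ)
  have h3 : tr (e' * e' * γ) = tr (c d * c d * γ) := by
    have e1 : e' * e' * γ = ∑ p ∈ s ×ˢ s, c p.1 * c p.2 * γ := by
      rw [Finset.sum_mul_sum, Finset.sum_product, Finset.sum_mul]
      simp only [Finset.sum_mul]
    rw [e1, map_sum, Finset.sum_eq_single (d, d)]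
    · intro jk hjk hne
      have hj : jk.1 ≤ d := (Finset.mem_filter.1 (Finset.mem_product.1 hjk).1).2
      have hk : jk.2 ≤ d := (Finset.mem_filter.1 (Finset.mem_product.1 hjk).2).2
      have hjk' : jk.1 + jk.2 + -(d + d) ≠ 0 := by
        intro h
        apply hne
        have h4 : jk.1 = d := by linarith
        have h5 : jk.2 = d := by linarith
        exact Prod.ext h4 h5
      exact htr (jk.1 + jk.2 + -(d + d)) hjk' _
        (hmul _ _ _ (hmul _ _ _ (hc jk.1) _ (hc jk.2)) _ hγ)
    · intro h4
      have h5 : d ∈ s := by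
        rw [Finset.mem_filter]
        exact ⟨hds, le_refl d⟩
      exfalso
      apply h4
      rw [Finset.mem_product]
      exact ⟨h5, h5⟩
  rw [sub_mul, map_sub, h2, sub_zero, h3] at h1
  exact h1

/-- The even projector has degree zero modulo the radical. -/
theorem even_degree_zero : ∃ e0 ∈ A 0, InRad tr (e - e0) := by
  classical
  obtain ⟨c, hc, hec⟩ := hspan e
  refine ⟨c 0, hc 0, ?_⟩
  have hpos : ∀ i : ℤ, 0 < i → InRad tr (c i) := fun i hi =>
    component_pos hsym he hE hO hmul hspan htr c hc hec hi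
  have hneg : ∀ i : ℤ, i < 0 → InRad tr (c i) := by
    intro i hi
    have hmul' : ∀ i j : ℤ, ∀ x ∈ A (-i), ∀ y ∈ A (-j), x * y ∈ A (-(i + j)) := by
      intro i j x hx y hy
      rw [neg_add]
      exact hmul _ _ _ hx _ hy
    have hflip : ∀ (x : R) (c : ℤ →₀ R), (∀ i, c i ∈ A i) → (x = c.sum fun _ y => y) →
        ∃ c' : ℤ →₀ R, (∀ i, c' i = c (-i)) ∧ (∀ i, c' i ∈ A (-i)) ∧
          x = c'.sum fun _ y => y := by
      intro x c hc hx
      refine ⟨c.equivMapDomain (Equiv.neg ℤ), fun i => by simp [Finsupp.equivMapDomain_apply],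
        fun i => by simpa [Finsupp.equivMapDomain_apply] using hc (-i), ?_⟩
      rw [hx, Finsupp.sum_equivMapDomain]
    have hspan' : ∀ x : R, ∃ c : ℤ →₀ R, (∀ i, c i ∈ A (-i)) ∧ x = c.sum fun _ y => y := by
      intro x
      obtain ⟨c, hc, hx⟩ := hspan x
      obtain ⟨c', -, h1, h2⟩ := hflip x c hc hx
      exact ⟨c', h1, h2⟩
    obtain ⟨c', h0, h1, h2⟩ := hflip e c hc hec
    have h3 := component_pos (A := fun i => A (-i)) hsym he hE hO hmul' hspan'
      (fun i hi x hx => htr (-i) (by omega) x hx) c' h1 h2 (i := -i) (by omega)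
    rw [h0, neg_neg] at h3
    exact h3
  have h1 : e - c 0 = ∑ i ∈ c.support.erase 0, c i := by
    by_cases h0 : (0 : ℤ) ∈ c.support
    · conv_lhs => rw [hec, Finsupp.sum, ← Finset.add_sum_erase _ _ h0]
      exact add_sub_cancel_left _ _
    · rw [Finset.erase_eq_of_notMem h0, Finsupp.notMem_support_iff.1 h0, sub_zero]
      exact hec
  rw [h1]
  apply inRad_sum
  intro i hi
  have hi0 := Finset.ne_of_mem_erase hi
  rcases lt_or_gt_of_ne hi0 with h | h
  · exact hneg i h
  · exact hpos i h

end Kf

end Pool.Agent.K3h85.KO
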