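import Pool.Agent.K3h85.KO.Orb
import Pool.Agent.K3h85.KO.Gr

/-!
# Kimura-finiteness and orbit categories
-/

set_option autoImplicit false
set_option linter.unusedSectionVars false

open CategoryTheory Limits MonoidalCategory
open Pool.Agent.Y116.MT (tr)
open Pool.Agent.Y112.KD
open Pool.Agent.TH829.Kim (InRad Killed isNilpotent_of_inRad exists_lift exists_conj)

namespace Pool.Agent.K3h85.KO

universe v u v' u'

open Functor.LaxMonoidal Functor.OplaxMonoidal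

section

variable {C : Type u} [Category.{v} C] [MonoidalCategory C] [SymmetricCategory C]
  [Preadditive C] [Linear ℚ C] [MonoidalPreadditive C] [MonoidalLinear ℚ C]

lemma isEven_iff (X : C) : IsEven X ↔ ∃ n, asym (-1) X n = 0 := by
  simp only [IsEven, kills_iff (by norm_num : (-1 : ℚ) * (-1) = 1)]

lemma isOdd_iff (X : C) : IsOdd X ↔ ∃ n, asym 1 X n = 0 := by
  simp only [IsOdd, kills_iff (by norm_num : (1 : ℚ) * 1 = 1)]

lemma asym_mono {η : ℚ} (hη : η * η = 1) (E : C) {n : ℕ} (h : asym η E n = 0) :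
    asym η E (n + 1) = 0 := by
  rw [← (absorb hη E n).1, h]
  simp

/-- The data of a decomposition, with powers that can be contracted. -/
lemma IsKimuraFinite.parts [RightRigidCategory C] (hU : UnitQ C) {M : C}
    (h : IsKimuraFinite M) : ∃ (E O : C) (i : E ⟶ M) (r : M ⟶ E) (i' : O ⟶ M) (r' : M ⟶ O)
      (n m : ℕ) (e : End M), i ≫ r = 𝟙 E ∧ i' ≫ r' = 𝟙 O ∧ e = r ≫ i ∧ 1 - e = r' ≫ i' ∧
      e * e = e ∧ asym (-1) E n = 0 ∧ asym 1 O m = 0 ∧
      Killed (trq hU M) (-1) e n ∧ Killed (trq hU M) 1 (1 - e) m := by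
  obtain ⟨E, O, i, r, i', r', h1, h2, -, -, h3, hE, hO⟩ := h
  obtain ⟨n, hn⟩ := (isEven_iff E).1 hE
  obtain ⟨m, hm⟩ := (isOdd_iff O).1 hO
  have h4 : (1 : End M) - (show End M from r ≫ i) = r' ≫ i' := by
    have h7 : (1 : End M) = (show End M from r ≫ i) + (show End M from r' ≫ i') := h3.symm
    rw [h7]
    exact add_sub_cancel_left _ _
  refine ⟨E, O, i, r, i', r', n, m, r ≫ i, h1, h2, rfl, h4, ?_, hn, hm, ?_, ?_⟩
  · rw [End.mul_def, Category.assoc, reassoc_of% h1]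
  · exact killed hU (by norm_num) i r n (asym_mono (by norm_num) E hn) _ rfl
  · exact killed hU (by norm_num) i' r' m (asym_mono (by norm_num) O hm) _ h4

lemma trq_symm [RightRigidCategory C] (hU : UnitQ C) {M : C} (a b : End M) :
    trq hU M (a * b) = trq hU M (b * a) := by
  apply hU.inj
  rw [← trq_spec, ← trq_spec, End.mul_def, End.mul_def]
  exact tr_cyc _ _

end

section

variable {C : Type u} [Category.{v} C] [Preadditive C] [Linear ℚ C] [MonoidalCategory C]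
  [MonoidalPreadditive C] [MonoidalLinear ℚ C] [SymmetricCategory C] [RightRigidCategory C]
  {D : Type u'} [Category.{v'} D] [Preadditive D] [Linear ℚ D] [MonoidalCategory D]
  [MonoidalPreadditive D] [MonoidalLinear ℚ D] [SymmetricCategory D] [RightRigidCategory D]
  {Φ : C ⥤ D} [Φ.Braided] [Φ.Additive] (t : Twist Φ) (ht : t.IsOrbit)

include ht in
lemma Twist.hom_injective {i j : ℤ} (hij : i ≠ j) {M N : C} {f : M ⟶ N ⊗ t.T i}
    {g : M ⟶ N ⊗ t.T j} (h : t.hom i M N f = t.hom j M N g) : t.hom i M N f = 0 := by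
  classical
  have h1 := (ht M N).1
  have h2 : DirectSum.toAddMonoid (fun i : ℤ => t.hom i M N)
      (DirectSum.of (fun i : ℤ => (M ⟶ N ⊗ t.T i)) i f) =
      DirectSum.toAddMonoid (fun i : ℤ => t.hom i M N)
      (DirectSum.of (fun i : ℤ => (M ⟶ N ⊗ t.T i)) j g) := by
    rw [DirectSum.toAddMonoid_of, DirectSum.toAddMonoid_of, h]
  have h3 := congrArg (fun z : DirectSum ℤ (fun i : ℤ => (M ⟶ N ⊗ t.T i)) => z i) (h1 h2)
  simp only at h3
  rw [DirectSum.of_eq_same, DirectSum.of_eq_of_ne _ _ _ hij] at h3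
  rw [h3, map_zero]

include t ht in
lemma faithful : Φ.Faithful := by
  refine ⟨fun {M N} f g h => ?_⟩
  classical
  have h1 := (ht M N).1
  have h2 : DirectSum.toAddMonoid (fun i : ℤ => t.hom i M N)
      (DirectSum.of (fun i : ℤ => (M ⟶ N ⊗ t.T i)) 0 (f ≫ (ρ_ N).inv ≫ N ◁ t.unit.hom)) =
      DirectSum.toAddMonoid (fun i : ℤ => t.hom i M N)
      (DirectSum.of (fun i : ℤ => (M ⟶ N ⊗ t.T i)) 0 (g ≫ (ρ_ N).inv ≫ N ◁ t.unit.hom)) := by
    rw [DirectSum.toAddMonoid_of, DirectSum.toAddMonoid_of, t.hom_zero, t.hom_zero, h]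
  have h3 := DirectSum.of_injective (β := fun i : ℤ => (M ⟶ N ⊗ t.T i)) 0 (h1 h2)
  have h4 : IsIso (N ◁ t.unit.hom) := inferInstance
  rw [← Category.assoc, ← Category.assoc] at h3
  rw [← cancel_mono ((ρ_ N).inv ≫ N ◁ t.unit.hom), ← Category.assoc, ← Category.assoc]
  exact h3

include ht in
/-- The trace of an endomorphism of nonzero degree vanishes. -/
lemma Twist.trace_eq_zero (hU : UnitQ D) {i : ℤ} (hi : i ≠ 0) {M : C} (f : M ⟶ M ⊗ t.T i) :
    trq hU (Φ.obj M) (t.hom i M M f) = 0 := by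
  let g : Φ.obj M ⟶ Φ.obj M := t.hom i M M f
  let P := mapPairing Φ M Mᘁ
  have h1 := @tr_pairing D _ _ _ _ (Φ.obj M) (Φ.obj Mᘁ) P g
  have h2 : @ExactPairing.coevaluation D _ _ (Φ.obj M) (Φ.obj Mᘁ) P =
      ε Φ ≫ Φ.map (η_ M Mᘁ) ≫ δ Φ M Mᘁ := rfl
  have h3 : @ExactPairing.evaluation D _ _ (Φ.obj M) (Φ.obj Mᘁ) P =
      μ Φ Mᘁ M ≫ Φ.map (ε_ M Mᘁ) ≫ η Φ := rfl
  rw [h2, h3] at h1
  have h4 : (β_ (Φ.obj M) (Φ.obj Mᘁ)).hom ≫ μ Φ Mᘁ M = μ Φ M Mᘁ ≫ Φ.map (β_ M Mᘁ).hom :=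
    (Functor.LaxBraided.braided M Mᘁ).symm
  have h5 := t.hom_whisker i Mᘁ f
  set g' := f ▷ Mᘁ ≫ sw3 M (t.T i) Mᘁ with hg'
  -- the middle part has degree `i`
  have h6 : tr g = ε Φ ≫ (Φ.map (η_ M Mᘁ) ≫ t.hom i (M ⊗ Mᘁ) (M ⊗ Mᘁ) g' ≫
      Φ.map ((β_ M Mᘁ).hom ≫ ε_ M Mᘁ)) ≫ η Φ := by
    rw [h1, ← h5, Functor.map_comp]
    simp only [Category.assoc]
    rw [reassoc_of% h4]
  have h7 : ∃ x : 𝟙_ C ⟶ 𝟙_ C ⊗ t.T i, Φ.map (η_ M Mᘁ) ≫ t.hom i (M ⊗ Mᘁ) (M ⊗ Mᘁ) g' ≫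
      Φ.map ((β_ M Mᘁ).hom ≫ ε_ M Mᘁ) = t.hom i (𝟙_ C) (𝟙_ C) x := by
    refine ⟨η_ M Mᘁ ≫ g' ≫ ((β_ M Mᘁ).hom ≫ ε_ M Mᘁ) ▷ t.T i, ?_⟩
    have h8 := t.tm_nat i ((β_ M Mᘁ).hom ≫ ε_ M Mᘁ)
    rw [Twist.hom_apply, Twist.hom_apply]
    simp only [Functor.map_comp, Category.assoc] at h8 ⊢
    rw [h8]
  obtain ⟨x, hx⟩ := h7
  rw [hx] at h6
  have h9 : tr g = trq hU (Φ.obj M) g • 𝟙 _ := trq_spec hU (X := Φ.obj M) g
  set q := trq hU (Φ.obj M) g with hq
  have h10 : t.hom i (𝟙_ C) (𝟙_ C) x = Φ.map (q • 𝟙 _) := by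
    have h11 : η Φ ≫ tr g ≫ ε Φ = t.hom i (𝟙_ C) (𝟙_ C) x := by
      rw [h6]
      simp
    rw [← h11, h9, Functor.map_smul, CategoryTheory.Functor.map_id, Linear.smul_comp,
      Linear.comp_smul, Category.id_comp, Functor.Monoidal.η_ε]
  rw [← t.hom_zero] at h10
  have h12 := t.hom_injective ht hi h10
  have h13 : tr g = 0 := by
    rw [h6, h12]
    simp
  apply hU.inj
  rw [zero_smul]
  exact h9.symm.trans h13

/-- The elements of degree `i` of the ring of endomorphisms. -/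
def Twist.deg (M : C) (i : ℤ) : Submodule ℚ (End (Φ.obj M)) where
  carrier := {g | ∃ f : M ⟶ M ⊗ t.T i, g = t.hom i M M f}
  zero_mem' := ⟨0, by rw [map_zero]⟩
  add_mem' := by
    rintro _ _ ⟨f, rfl⟩ ⟨f', rfl⟩
    exact ⟨f + f', by rw [map_add]⟩
  smul_mem' := by
    rintro q _ ⟨f, rfl⟩
    refine ⟨q • f, ?_⟩
    change q • (t.hom i M M f : Φ.obj M ⟶ Φ.obj M) = _
    rw [Twist.hom_apply, Twist.hom_apply, Functor.map_smul, Linear.smul_comp]

lemma Twist.mem_deg {M : C} {i : ℤ} {g : End (Φ.obj M)} : g ∈ t.deg M i ↔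
    ∃ f : M ⟶ M ⊗ t.T i, g = t.hom i M M f := Iff.rfl

lemma Twist.deg_mul {M : C} (i j : ℤ) : ∀ x ∈ t.deg M i, ∀ y ∈ t.deg M j,
    x * y ∈ t.deg M (i + j) := by
  rintro _ ⟨f, rfl⟩ _ ⟨g, rfl⟩
  rw [End.mul_def, t.hom_comp]
  exact ⟨_, rfl⟩

include ht in
lemma Twist.deg_span {M : C} (x : End (Φ.obj M)) : ∃ c : ℤ →₀ End (Φ.obj M),
    (∀ i, c i ∈ t.deg M i) ∧ x = c.sum fun _ y => y := by
  classical
  obtain ⟨f, hf⟩ := (ht M M).2 x
  refine ⟨Finsupp.onFinset f.support (fun i => t.hom i M M (f i)) ?_, ?_, ?_⟩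
  · intro i hi
    rw [DFinsupp.mem_support_iff]
    intro h0
    rw [h0, map_zero] at hi
    exact hi rfl
  · intro i
    exact ⟨f i, rfl⟩
  · rw [Finsupp.onFinset_sum _ (fun _ => rfl)]
    have h1 := congrArg (DirectSum.toAddMonoid fun i : ℤ => t.hom i M M)
      (DirectSum.sum_support_of f)
    rw [map_sum, hf] at h1
    rw [← h1]
    apply Finset.sum_congr rfl
    intro i _
    rw [DirectSum.toAddMonoid_of]

include t ht in
/-- Kimura-finiteness can be tested in the orbit category. -/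
theorem kimura_iff [IsIdempotentComplete C] (hU : UnitQ D) (M : C) :
    IsKimuraFinite M ↔ IsKimuraFinite (Φ.obj M) := by
  have hfaith : Φ.Faithful := faithful t ht
  constructor
  · rintro ⟨E, O, i, r, i', r', h1, h2, h3, h4, h5, hE, hO⟩
    refine ⟨Φ.obj E, Φ.obj O, Φ.map i, Φ.map r, Φ.map i', Φ.map r', ?_, ?_, ?_, ?_, ?_, ?_, ?_⟩
    · rw [← Functor.map_comp, h1, CategoryTheory.Functor.map_id]
    · rw [← Functor.map_comp, h2, CategoryTheory.Functor.map_id]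
    · rw [← Functor.map_comp, h3, Functor.map_zero]
    · rw [← Functor.map_comp, h4, Functor.map_zero]
    · rw [← Functor.map_comp, ← Functor.map_comp, ← Functor.map_add, h5,
        CategoryTheory.Functor.map_id]
    · obtain ⟨n, hn⟩ := (isEven_iff E).1 hE
      exact (isEven_iff _).2 ⟨n, asym_map_eq_zero Φ hn⟩
    · obtain ⟨n, hn⟩ := (isOdd_iff O).1 hO
      exact (isOdd_iff _).2 ⟨n, asym_map_eq_zero Φ hn⟩
  · intro h
    obtain ⟨E, O, i, r, i', r', n, m, e, h1, h2, he, he', hee, hn, hm, hK, hK'⟩ := h.parts hU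
    have hsym := trq_symm hU (M := Φ.obj M)
    obtain ⟨e0, he0, hr⟩ := even_degree_zero hsym hee hK hK' (A := t.deg M)
      (fun i j => t.deg_mul i j) (t.deg_span ht) (by
        rintro i hi _ ⟨f, rfl⟩
        exact t.trace_eq_zero ht hU hi f)
    obtain ⟨f0, hf0⟩ := he0
    rw [t.hom_zero'] at hf0
    generalize hf1 : f0 ≫ M ◁ t.unit.inv ≫ (ρ_ M).hom = f1 at hf0
    have hnilall : ∀ x, InRad (trq hU (Φ.obj M)) x → IsNilpotent x := fun x hx =>
      isNilpotent_of_inRad hsym hee hK hK' hx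
    have hsq : InRad (trq hU (Φ.obj M)) (e0 * e0 - e0) := by
      have e1 : e0 * e0 - e0 = -((e - e0) * e0 + e * (e - e0)) + (e - e0) := by
        have : e0 * e0 - e0 = -((e - e0) * e0 + e * (e - e0)) + (e * e - e0) := by noncomm_ring
        rw [this, hee]
      rw [e1]
      exact ((hr.mul_right _).add (hr.mul_left hsym _)).neg.add hr
    have hmapmul : ∀ x y : End M, (Φ.mapEnd M) (x * y) = (Φ.mapEnd M) x * (Φ.mapEnd M) y :=
      fun x y => map_mul _ _ _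
    have hmapsub : ∀ x y : End M, (Φ.mapEnd M) (x - y) = (Φ.mapEnd M) x - (Φ.mapEnd M) y :=
      fun x y => Functor.map_sub _
    have hmap1 : (Φ.mapEnd M) (show End M from f1) = e0 := hf0.symm
    have hnil : IsNilpotent ((show End M from f1) * (show End M from f1) -
        (show End M from f1)) := by
      obtain ⟨k, hk⟩ := hnilall _ hsq
      refine ⟨k, ?_⟩
      apply Φ.map_injective
      have h3 : (Φ.mapEnd M) (((show End M from f1) * (show End M from f1) -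
          (show End M from f1)) ^ k) = (e0 * e0 - e0) ^ k := by
        rw [map_pow, hmapsub, hmapmul, hmap1]
      refine Eq.trans h3 (hk.trans ?_)
      exact (Functor.map_zero Φ M M).symm
    obtain ⟨f, c, hff, hfc⟩ := exists_lift hnil
    have hF : (Φ.mapEnd M) f * (Φ.mapEnd M) f = (Φ.mapEnd M) f := by rw [← hmapmul, hff]
    have heF : InRad (trq hU (Φ.obj M)) (e - (Φ.mapEnd M) f) := by
      have h3 : (Φ.mapEnd M) f - e0 = (e0 * e0 - e0) * (Φ.mapEnd M) c := by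
        rw [← hmap1, ← hmapsub, hfc, hmapmul, hmapsub, hmapmul]
      have h4 : e - (Φ.mapEnd M) f = (e - e0) - ((Φ.mapEnd M) f - e0) := by abel
      rw [h4, h3]
      exact hr.sub (hsq.mul_right _)
    obtain ⟨u, v, huv, hvu, heu⟩ := exists_conj hsym hee hF hnilall heF
    have hFe : (Φ.mapEnd M) f = v * e * u := by
      rw [heu]
      calc (Φ.mapEnd M) f = (v * u) * (Φ.mapEnd M) f * (v * u) := by rw [hvu, one_mul, mul_one]
        _ = _ := by simp only [mul_assoc]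
    have hFe' : (Φ.mapEnd M) (1 - f) = v * (1 - e) * u := by
      rw [hmapsub, map_one, hFe, mul_sub, sub_mul, mul_one, hvu]
    have hff' : (1 - f) * (1 - f) = 1 - f := compl_idem hff
    have key : ∀ (η : ℚ) (g : End M) (g' : End (Φ.obj M)) (P : D) (j : P ⟶ Φ.obj M)
        (q : Φ.obj M ⟶ P) (n : ℕ), g * g = g → (Φ.mapEnd M) g = v * g' * u → g' = q ≫ j →
        asym η P n = 0 → ∃ (Q : C) (i₁ : Q ⟶ M) (r₁ : M ⟶ Q), i₁ ≫ r₁ = 𝟙 Q ∧ r₁ ≫ i₁ = g ∧
          asym η Q n = 0 := by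
      intro η g g' P j q n hg hgg' hg' hP
      obtain ⟨Q, i₁, r₁, k1, k2⟩ := IsIdempotentComplete.idempotents_split M (g : M ⟶ M) hg
      refine ⟨Q, i₁, r₁, k1, k2, ?_⟩
      apply asym_eq_zero_of_map Φ
      refine kills_retract (Φ.map i₁ ≫ (u : Φ.obj M ⟶ Φ.obj M) ≫ q)
        (j ≫ (v : Φ.obj M ⟶ Φ.obj M) ≫ Φ.map r₁) ?_ hP
      have k3 : Φ.map (g : M ⟶ M) = (u : Φ.obj M ⟶ Φ.obj M) ≫ (q ≫ j) ≫ v := by
        rw [← hg']
        exact hgg'
      have k4 : (Φ.map i₁ ≫ (u : Φ.obj M ⟶ Φ.obj M) ≫ q) ≫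
          (j ≫ (v : Φ.obj M ⟶ Φ.obj M) ≫ Φ.map r₁) = Φ.map i₁ ≫
            ((u : Φ.obj M ⟶ Φ.obj M) ≫ (q ≫ j) ≫ v) ≫ Φ.map r₁ := by
        simp only [Category.assoc]
      rw [k4, ← k3, ← k2, ← Functor.map_comp, ← Functor.map_comp, Category.assoc, k1,
        Category.comp_id, k1, CategoryTheory.Functor.map_id]
    obtain ⟨E', i₁, r₁, k1, k2, k3⟩ := key (-1) f e E i r n hff hFe he hn
    obtain ⟨O', i₂, r₂, l1, l2, l3⟩ := key 1 (1 - f) (1 - e) O i' r' m hff' hFe' he' hm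
    have hsum : r₁ ≫ i₁ + r₂ ≫ i₂ = 𝟙 M := by
      rw [k2, l2]
      exact add_sub_cancel f 1
    have hz1 : i₁ ≫ r₂ = 0 := by
      have e1 : i₁ ≫ (r₁ ≫ i₁ + r₂ ≫ i₂) ≫ r₂ = i₁ ≫ r₂ := by rw [hsum, Category.id_comp]
      rw [Preadditive.add_comp, Preadditive.comp_add, Category.assoc, Category.assoc, l1,
        reassoc_of% k1, Category.comp_id] at e1
      exact left_eq_add.1 e1.symm
    have hz2 : i₂ ≫ r₁ = 0 := by
      have e1 : i₂ ≫ (r₁ ≫ i₁ + r₂ ≫ i₂) ≫ r₁ = i₂ ≫ r₁ := by rw [hsum, Category.id_comp]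
      rw [Preadditive.add_comp, Preadditive.comp_add, Category.assoc, Category.assoc, k1,
        reassoc_of% l1, Category.comp_id] at e1
      exact left_eq_add.1 e1.symm
    exact ⟨E', O', i₁, r₁, i₂, r₂, k1, l1, hz1, hz2, hsum, (isEven_iff E').2 ⟨n, k3⟩,
      (isOdd_iff O').2 ⟨m, l3⟩⟩

end

end Pool.Agent.K3h85.KO
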