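import Pool.Agent.K3h85.KO.Defs
import Pool.Agent.K3h85.KO.Fun

/-!
# Composition, tensor products and traces of homogeneous morphisms
-/

set_option autoImplicit false
set_option linter.unusedSectionVars false

open CategoryTheory Limits MonoidalCategory
open Pool.Agent.Y116.MT (tr)
open Pool.Agent.Y112.KD

namespace Pool.Agent.K3h85.KO

universe v u v' u'

open Functor.LaxMonoidal Functor.OplaxMonoidal

section

variable {C : Type u} [Category.{v} C] [Preadditive C] [MonoidalCategory C]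
  [MonoidalPreadditive C] {D : Type u'} [Category.{v'} D] [Preadditive D] [MonoidalCategory D]
  [MonoidalPreadditive D] {Φ : C ⥤ D} [Φ.Monoidal] (t : Twist Φ)

omit [Preadditive D] [MonoidalPreadditive D] in
lemma unit_aux (A : D) {B B' : D} (a : B ⟶ 𝟙_ D) (b : B' ⟶ 𝟙_ D) :
    (A ⊗ B) ◁ b ≫ (ρ_ (A ⊗ B)).hom ≫ A ◁ a ≫ (ρ_ A).hom =
      (α_ A B B').hom ≫ A ◁ ((a ⊗ₘ b) ≫ (λ_ (𝟙_ D)).hom) ≫ (ρ_ A).hom := by
  rw [tensorHom_def', Category.assoc, unitors_equal, rightUnitor_naturality]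
  simp

/-- The isomorphism `Φ (N ⊗ T i) ≅ Φ N`. -/
def Twist.tm (i : ℤ) (N : C) : Φ.obj (N ⊗ t.T i) ⟶ Φ.obj N :=
  δ Φ N (t.T i) ≫ (Φ.obj N ◁ (t.triv i).hom) ≫ (ρ_ (Φ.obj N)).hom

lemma Twist.hom_apply [Φ.Additive] (i : ℤ) (M N : C) (f : M ⟶ N ⊗ t.T i) :
    t.hom i M N f = Φ.map f ≫ t.tm i N := rfl

lemma Twist.tm_nat (i : ℤ) {N P : C} (g : N ⟶ P) :
    Φ.map (g ▷ t.T i) ≫ t.tm i P = t.tm i N ≫ Φ.map g := by
  simp only [Twist.tm, Category.assoc]
  rw [← δ_natural_left_assoc, ← whisker_exchange_assoc, rightUnitor_naturality]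

lemma Twist.map_unit_triv : Φ.map t.unit.hom ≫ (t.triv 0).hom = η Φ := by
  have h1 := congrArg (fun z => η Φ ≫ z) t.triv_unit
  simpa using h1

lemma Twist.map_mul_triv (i j : ℤ) : Φ.map (t.mul i j).hom ≫ (t.triv (i + j)).hom =
    δ Φ (t.T i) (t.T j) ≫ ((t.triv i).hom ⊗ₘ (t.triv j).hom) ≫ (λ_ (𝟙_ D)).hom := by
  have h1 := congrArg (fun z => δ Φ (t.T i) (t.T j) ≫ z) (t.triv_mul i j)
  simpa using h1

/-- Morphisms of `C` have degree zero. -/
lemma Twist.tm_zero (N : C) :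
    Φ.map ((ρ_ N).inv ≫ N ◁ t.unit.hom) ≫ t.tm 0 N = 𝟙 _ := by
  rw [Twist.tm, Functor.map_comp, Category.assoc, ← δ_natural_right_assoc,
    ← MonoidalCategory.whiskerLeft_comp_assoc, t.map_unit_triv]
  simp

/-- The composition of twists. -/
lemma Twist.tm_tm (i j : ℤ) (P : C) : t.tm i (P ⊗ t.T j) ≫ t.tm j P =
    Φ.map ((α_ P (t.T j) (t.T i)).hom ≫ P ◁ (t.mul j i).hom) ≫ t.tm (j + i) P := by
  have h1 := Functor.OplaxMonoidal.associativity (F := Φ) P (t.T j) (t.T i)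
  rw [Functor.map_comp, Category.assoc, Twist.tm, Twist.tm, Twist.tm, ← δ_natural_right_assoc,
    ← MonoidalCategory.whiskerLeft_comp_assoc, t.map_mul_triv,
    MonoidalCategory.whiskerLeft_comp_assoc, ← reassoc_of% h1]
  simp only [Category.assoc]
  congr 1
  rw [← rightUnitor_naturality_assoc, whisker_exchange_assoc, unit_aux]

/-- The degrees add up under composition. -/
lemma Twist.hom_comp [Φ.Additive] (i j : ℤ) {M N P : C} (f : M ⟶ N ⊗ t.T i)
    (g : N ⟶ P ⊗ t.T j) : t.hom i M N f ≫ t.hom j N P g =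
      t.hom (j + i) M P (f ≫ g ▷ t.T i ≫ (α_ P (t.T j) (t.T i)).hom ≫ P ◁ (t.mul j i).hom) := by
  have h1 := t.tm_tm i j P
  have h2 := t.tm_nat i g
  simp only [Twist.hom_apply, Functor.map_comp, Category.assoc] at h1 ⊢
  rw [← h1, ← reassoc_of% h2]

/-- Morphisms of `C` have degree zero. -/
lemma Twist.hom_zero [Φ.Additive] {M N : C} (f : M ⟶ N) :
    t.hom 0 M N (f ≫ (ρ_ N).inv ≫ N ◁ t.unit.hom) = Φ.map f := by
  have h1 := t.tm_zero N
  rw [Twist.hom_apply, Functor.map_comp, Category.assoc, h1, Category.comp_id]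

/-- Morphisms of degree zero come from `C`. -/
lemma Twist.hom_zero' [Φ.Additive] {M N : C} (f : M ⟶ N ⊗ t.T 0) :
    t.hom 0 M N f = Φ.map (f ≫ N ◁ t.unit.inv ≫ (ρ_ N).hom) := by
  rw [← t.hom_zero]
  congr 1
  simp [← MonoidalCategory.whiskerLeft_comp]

end

section

variable {C : Type u} [Category.{v} C] [Preadditive C] [MonoidalCategory C]
  [MonoidalPreadditive C] [SymmetricCategory C] {D : Type u'} [Category.{v'} D] [Preadditive D]
  [MonoidalCategory D] [MonoidalPreadditive D] [SymmetricCategory D] {Φ : C ⥤ D} [Φ.Braided]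
  (t : Twist Φ)

/-- The exchange of the last two factors of a tensor product of three objects. -/
def sw3 (N T X : D) : (N ⊗ T) ⊗ X ⟶ (N ⊗ X) ⊗ T :=
  (α_ N T X).hom ≫ N ◁ (β_ T X).hom ≫ (α_ N X T).inv

lemma sw3_map {C : Type u} [Category.{v} C] [MonoidalCategory C] [SymmetricCategory C]
    {D : Type u'} [Category.{v'} D] [MonoidalCategory D] [SymmetricCategory D]
    (F : C ⥤ D) [F.Braided] (N T X : C) :
    (μ F N T ▷ F.obj X) ≫ μ F (N ⊗ T) X ≫ F.map (sw3 N T X) =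
      sw3 (F.obj N) (F.obj T) (F.obj X) ≫ (μ F N X ▷ F.obj T) ≫ μ F (N ⊗ X) T := by
  have h1 := Functor.LaxMonoidal.associativity (F := F) N T X
  have h2 := Functor.LaxMonoidal.associativity_inv (F := F) N X T
  have h3 : μ F T X ≫ F.map (β_ T X).hom = (β_ (F.obj T) (F.obj X)).hom ≫ μ F X T :=
    Functor.LaxBraided.braided T X
  simp only [sw3, Functor.map_comp, Category.assoc]
  rw [reassoc_of% h1, ← μ_natural_right_assoc, ← h2, ← MonoidalCategory.whiskerLeft_comp_assoc,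
    h3, MonoidalCategory.whiskerLeft_comp_assoc]

lemma sw3_unit (N X : D) {T : D} (b : T ⟶ 𝟙_ D) :
    sw3 N T X ≫ (N ⊗ X) ◁ b ≫ (ρ_ (N ⊗ X)).hom = (N ◁ b ≫ (ρ_ N).hom) ▷ X := by
  simp only [sw3, Category.assoc]
  rw [← associator_inv_naturality_right_assoc, ← MonoidalCategory.whiskerLeft_comp_assoc,
    ← BraidedCategory.braiding_naturality_left, MonoidalCategory.whiskerLeft_comp_assoc,
    braiding_tensorUnit_left]
  simp

lemma Twist.tm_whisker (i : ℤ) (N X : C) :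
    δ Φ (N ⊗ t.T i) X ≫ (t.tm i N ▷ Φ.obj X) ≫ μ Φ N X =
      Φ.map (sw3 N (t.T i) X) ≫ t.tm i (N ⊗ X) := by
  have h1 := sw3_map Φ N (t.T i) X
  have h2 := sw3_unit (Φ.obj N) (Φ.obj X) (t.triv i).hom
  rw [← cancel_epi (μ Φ (N ⊗ t.T i) X), Functor.Monoidal.μ_δ_assoc,
    ← cancel_epi (μ Φ N (t.T i) ▷ Φ.obj X), reassoc_of% h1]
  simp only [Twist.tm, Functor.Monoidal.μ_δ_assoc]
  rw [← comp_whiskerRight_assoc, Functor.Monoidal.μ_δ_assoc, ← h2,
    ← whisker_exchange_assoc, rightUnitor_naturality]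
  simp only [Category.assoc]

/-- The tensor product with an object of `C` preserves the degree. -/
lemma Twist.hom_whisker [Φ.Additive] (i : ℤ) {M N : C} (X : C) (f : M ⟶ N ⊗ t.T i) :
    δ Φ M X ≫ (t.hom i M N f ▷ Φ.obj X) ≫ μ Φ N X =
      t.hom i (M ⊗ X) (N ⊗ X) (f ▷ X ≫ sw3 N (t.T i) X) := by
  have h1 := t.tm_whisker i N X
  rw [Twist.hom_apply, Twist.hom_apply, Functor.map_comp, Category.assoc, ← h1,
    comp_whiskerRight_assoc, δ_natural_left_assoc]

end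

end Pool.Agent.K3h85.KO
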