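import Pool.Agent.Y112.KD.Kill

/-!
# Cyclicity of the trace and the trace computed with another dual
-/

set_option autoImplicit false
set_option linter.unusedSectionVars false

open CategoryTheory Limits MonoidalCategory
open Pool.Agent.Y116.MT (tr)
open Pool.Agent.Y112.KD

namespace Pool.Agent.K3h85.KO

universe v u v' u'

section

variable {C : Type u} [Category.{v} C] [MonoidalCategory C] [SymmetricCategory C]
  [RightRigidCategory C]

/-- The trace is cyclic. -/
lemma tr_cyc {X Y : C} (a : X ⟶ Y) (b : Y ⟶ X) : tr (a ≫ b) = tr (b ≫ a) := by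
  have h1 : (Xᘁ ◁ b) ≫ ε_ X Xᘁ = (bᘁ ▷ Y) ≫ ε_ Y Yᘁ :=
    (rightAdjointMate_comp_evaluation b).symm
  have h2 : η_ Y Yᘁ ≫ b ▷ Yᘁ = η_ X Xᘁ ≫ X ◁ bᘁ :=
    (coevaluation_comp_rightAdjointMate b).symm
  simp only [tr, comp_whiskerRight, Category.assoc]
  rw [BraidedCategory.braiding_naturality_left_assoc, h1,
    ← BraidedCategory.braiding_naturality_right_assoc, ← whisker_exchange_assoc, ← reassoc_of% h2]

/-- The trace may be computed with each dual. -/
lemma tr_pairing {X Y : C} [p : ExactPairing X Y] (g : X ⟶ X) :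
    tr g = η_ X Y ≫ g ▷ Y ≫ (β_ X Y).hom ≫ ε_ X Y := by
  let c : Xᘁ ⟶ Y := @rightAdjointMate C _ _ X X ⟨Y⟩ (RightRigidCategory.rightDual X) (𝟙 X)
  have h1 : η_ X Xᘁ ≫ X ◁ c = η_ X Y := by
    have h := @coevaluation_comp_rightAdjointMate C _ _ X X ⟨Y⟩
      (RightRigidCategory.rightDual X) (𝟙 X)
    rw [id_whiskerRight, Category.comp_id] at h
    exact h
  have h2 : (c ▷ X) ≫ ε_ X Y = ε_ X Xᘁ := by
    have h := @rightAdjointMate_comp_evaluation C _ _ X X ⟨Y⟩
      (RightRigidCategory.rightDual X) (𝟙 X)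
    rw [MonoidalCategory.whiskerLeft_id, Category.id_comp] at h
    exact h
  rw [tr, ← h1, ← h2, ← BraidedCategory.braiding_naturality_right_assoc, Category.assoc,
    whisker_exchange_assoc]

end

section

open Functor.LaxMonoidal Functor.OplaxMonoidal

variable {C : Type u} [Category.{v} C] [MonoidalCategory C] {D : Type u'} [Category.{v'} D]
  [MonoidalCategory D] (F : C ⥤ D) [F.Monoidal]

/-- The image of an exact pairing. -/
@[reducible] def mapPairing (X Y : C) [ExactPairing X Y] : ExactPairing (F.obj X) (F.obj Y) where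
  coevaluation' := ε F ≫ F.map (η_ X Y) ≫ δ F X Y
  evaluation' := μ F Y X ≫ F.map (ε_ X Y) ≫ η F
  coevaluation_evaluation' := by
    have h1 := congrArg F.map (ExactPairing.coevaluation_evaluation X Y)
    simp only [Functor.map_comp] at h1
    simp only [comp_whiskerRight, MonoidalCategory.whiskerLeft_comp, Category.assoc]
    rw [Functor.Monoidal.map_associator_inv'_assoc]
    have h2 : F.obj Y ◁ δ F X Y ≫ F.obj Y ◁ μ F X Y = 𝟙 _ := by
      rw [← MonoidalCategory.whiskerLeft_comp]; simp
    have h3 : δ F Y X ▷ F.obj Y ≫ μ F Y X ▷ F.obj Y = 𝟙 _ := by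
      rw [← comp_whiskerRight]; simp
    rw [reassoc_of% h2, reassoc_of% h3, μ_natural_right_assoc, δ_natural_left_assoc,
      reassoc_of% h1]
    simp
  evaluation_coevaluation' := by
    have h1 := congrArg F.map (ExactPairing.evaluation_coevaluation X Y)
    simp only [Functor.map_comp] at h1
    simp only [comp_whiskerRight, MonoidalCategory.whiskerLeft_comp, Category.assoc]
    rw [Functor.Monoidal.map_associator'_assoc]
    have h2 : F.obj X ◁ δ F Y X ≫ F.obj X ◁ μ F Y X = 𝟙 _ := by
      rw [← MonoidalCategory.whiskerLeft_comp]; simp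
    have h3 : δ F X Y ▷ F.obj X ≫ μ F X Y ▷ F.obj X = 𝟙 _ := by
      rw [← comp_whiskerRight]; simp
    rw [reassoc_of% h2, reassoc_of% h3, μ_natural_left_assoc, δ_natural_right_assoc,
      reassoc_of% h1]
    simp

end

end Pool.Agent.K3h85.KO
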